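import Pool.Agent.H126R2.CDC.Main

set_option autoImplicit false

/-!
# Cyclic 4-edge-cuts in smallest counterexamples to the circuit double cover conjecture

A finite graph with vertex set `V` and edge set `E` is given by `ends : E → Sym2 V`; loops and
parallel edges are allowed (`Pool.Agent.H126R2.CDC.MGraph`). `IsCircuit`, `Bridgeless` (every edge
lies on a circuit) and `IsCDC` (circuit double cover) are defined in `Pool.Agent.H126R2.CDC.Defs`.

No smallest counterexample to the circuit double cover conjecture has a cyclic 4-edge-cut. The
proof is the one foreseen in the problem file: by the theorem `MGraph.exists_cdc` of the starting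
library every bridgeless finite graph has a circuit double cover, so there is no counterexample.
-/

namespace Pool.Agent.Results.MP_b1bfa0_co.NoCyclicFourCut

open Finset
open Pool.Agent.H126R2.CDC (MGraph)

section

variable {V E : Type} [Fintype V] [DecidableEq V] [Fintype E] [DecidableEq E]

/-- A counterexample to the circuit double cover conjecture: a bridgeless graph without a circuit
double cover. -/
def IsCounterexample (G : MGraph V E) : Prop :=
  G.Bridgeless ∧ ¬ ∃ F : Multiset (Finset E), G.IsCDC F

/-- A smallest counterexample: a counterexample with the least number of vertices plus edges among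
all counterexamples. -/
def IsSmallestCounterexample (G : MGraph V E) : Prop :=
  IsCounterexample G ∧
    ∀ (V' E' : Type) [Fintype V'] [DecidableEq V'] [Fintype E'] [DecidableEq E']
      (G' : MGraph V' E'), IsCounterexample G' →
      Fintype.card V + Fintype.card E ≤ Fintype.card V' + Fintype.card E'

/-- The edge-cut of the vertex set `X`: the edges with exactly one end in `X`. -/
def cut (G : MGraph V E) (X : Finset V) : Finset E :=
  univ.filter fun e => (∃ x ∈ G.ends e, x ∈ X) ∧ ∃ y ∈ G.ends e, y ∉ X

/-- The vertices `u` and `v` lie in the same component of `G - T`. -/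
def Linked (G : MGraph V E) (T : Finset E) (u v : V) : Prop :=
  Relation.ReflTransGen (fun a b => ∃ e, e ∉ T ∧ G.ends e = s(a, b)) u v

/-- At least two components of `G - T` contain a circuit: there are circuits `C` and `C'` of
`G - T` and vertices `u` of `C` and `v` of `C'` in different components of `G - T`. -/
def IsCyclic (G : MGraph V E) (T : Finset E) : Prop :=
  ∃ C C' : Finset E, G.IsCircuit C ∧ G.IsCircuit C' ∧ Disjoint C T ∧ Disjoint C' T ∧
    ∃ u v : V, (∃ e ∈ C, u ∈ G.ends e) ∧ (∃ e ∈ C', v ∈ G.ends e) ∧ ¬ Linked G T u v

end

/-- No smallest counterexample to the circuit double cover conjecture has a cyclic 4-edge-cut. -/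
theorem result (V E : Type) [Fintype V] [DecidableEq V] [Fintype E] [DecidableEq E]
    (G : MGraph V E) (hG : IsSmallestCounterexample G) (X : Finset V) (hX : X.Nonempty)
    (hX' : X ≠ univ) (h4 : (cut G X).card = 4) : ¬ IsCyclic G (cut G X) :=
  fun _ => hG.1.2 (G.exists_cdc hG.1.1)

end Pool.Agent.Results.MP_b1bfa0_co.NoCyclicFourCut
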